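import Pool.Agent.U6.EK.Stm

/-! Package EXP of project EK: the binomial series with remainder. -/

set_option autoImplicit false

namespace Pool.Agent.U696.EK

open Finset Pool.Agent.U6.EK

theorem t_EXP : T_EXP := by
  intro N
  induction N with
  | zero =>
    intro K t ht
    cases K with
    | zero => simp
    | succ K =>
      rw [Finset.sum_range_succ']
      simp
  | succ N ih =>
    intro K t ht
    cases K with
    | zero =>
      simp only [Finset.range_zero, Finset.sum_empty, sub_zero, Nat.choose_zero_right, Nat.cast_one,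
        pow_zero, mul_one, norm_pow]
      exact pow_le_one₀ (norm_nonneg _) ht
    | succ K =>
      have h1 : ∑ k ∈ range (K + 1), ((N + 1).choose k : ℂ) * t ^ k =
          ∑ k ∈ range (K + 1), (N.choose k : ℂ) * t ^ k +
            ∑ k ∈ range K, (N.choose k : ℂ) * t ^ (k + 1) := by
        rw [Finset.sum_range_succ' (fun k => ((N + 1).choose k : ℂ) * t ^ k),
          Finset.sum_range_succ' (fun k => (N.choose k : ℂ) * t ^ k)]
        have h3 : ∀ k ∈ range K, ((N + 1).choose (k + 1) : ℂ) * t ^ (k + 1) =
            (N.choose k : ℂ) * t ^ (k + 1) + (N.choose (k + 1) : ℂ) * t ^ (k + 1) := by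
          intro k _
          rw [Nat.choose_succ_succ, Nat.cast_add, add_mul]
        rw [Finset.sum_congr rfl h3, Finset.sum_add_distrib]
        simp only [Nat.choose_zero_right, Nat.cast_one, pow_zero, mul_one]
        ring
      have h2 : ∑ k ∈ range K, (N.choose k : ℂ) * t ^ (k + 1) =
          t * ∑ k ∈ range (K + 1), (N.choose k : ℂ) * t ^ k - (N.choose K : ℂ) * t ^ (K + 1) := by
        rw [Finset.sum_range_succ, mul_add, Finset.mul_sum]
        have h3 : ∀ k ∈ range K, t * ((N.choose k : ℂ) * t ^ k) = (N.choose k : ℂ) * t ^ (k + 1) := by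
          intro k _
          ring
        rw [Finset.sum_congr rfl h3]
        ring
      have hid : (1 + t) ^ (N + 1) - ∑ k ∈ range (K + 1), ((N + 1).choose k : ℂ) * t ^ k =
          (1 + t) * ((1 + t) ^ N - ∑ k ∈ range (K + 1), (N.choose k : ℂ) * t ^ k) +
            (N.choose K : ℂ) * t ^ (K + 1) := by
        rw [h1, h2]
        ring
      have h4 : ‖(1 + t) * ((1 + t) ^ N - ∑ k ∈ range (K + 1), (N.choose k : ℂ) * t ^ k)‖ ≤
          (N.choose (K + 1) : ℝ) * ‖t‖ ^ (K + 1) := by
        rw [norm_mul]
        exact (mul_le_mul ht (ih (K + 1) t ht) (norm_nonneg _) zero_le_one).trans (by rw [one_mul])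
      have h5 : ‖(N.choose K : ℂ) * t ^ (K + 1)‖ = (N.choose K : ℝ) * ‖t‖ ^ (K + 1) := by
        rw [norm_mul, norm_pow, Complex.norm_natCast]
      rw [hid]
      refine (norm_add_le _ _).trans ?_
      rw [h5, Nat.choose_succ_succ, Nat.cast_add]
      linarith [h4]

end Pool.Agent.U696.EK
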